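import Pool.Agent.Y645.UG.Stm
import Pool.Agent.Y688.UL.B

/-!
# From the small to the big base field, graded (job UG-B)
-/

set_option autoImplicit false

namespace Pool.Agent.Y15.UG

open MvPolynomial Module Pool.Agent.Y645.UL Pool.Agent.Y688.UL

theorem bet_inj (ι κ : Type) : Function.Injective (bet ι κ) := by
  intro a b hab
  funext j
  exact congrFun hab (Sum.inl j)

/-- the rank grows at most by the number of the new coordinates -/
theorem mrk_elim_le {G ι κ : Type} [CommGroup G] [Fintype ι] [Fintype κ] (x : ι → G) (c : κ → G) :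
    mrk (Sum.elim x c) ≤ mrk x + Fintype.card κ := by
  have h1 := drop (bot_le : (⊥ : Submodule ℤ (ι ⊕ κ → ℤ)) ≤ Lam (Sum.elim x c)) (bet ι κ)
  rw [lam_comap] at h1
  have h2 : (⊥ : Submodule ℤ (ι ⊕ κ → ℤ)).comap (bet ι κ) = ⊥ :=
    (Submodule.comap_bot (bet ι κ)).trans (LinearMap.ker_eq_bot.2 (bet_inj ι κ))
  rw [h2, finrank_bot, finrank_bot] at h1
  have m1 := mrk_add (Sum.elim x c)
  have m2 := mrk_add x
  rw [Fintype.card_sum] at m1
  omega

theorem tdu_le_mrk (hTD : Pool.Agent.Y645.UG.S_TDg) {k L N : Type} [Field k] [Field L]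
    [Algebra k L] [Fintype N] (z : N → Lˣ) : tdu k z ≤ mrk z := by
  have h1 := hTD k L N Empty z (fun e => e.elim)
  have h2 : ∀ y : Empty → Lˣ, tdu k y ≤ 0 := by
    intro y
    have := td_le_card (k := k) (fun m : Empty => (y m : L))
    simpa [tdu] using this
  have h3 := h2 (fun m => mon z m.elim)
  have h4 := h1.trans (Nat.add_le_add_left h3 (mrk z))
  exact (Nat.le_add_right _ _).trans (h4.trans (Nat.add_zero _).le)

theorem t_Bg (hTD1 : Pool.Agent.Y645.UL.S_TD1) (hTD2 : Pool.Agent.Y645.UL.S_TD2)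
    (hINC : Pool.Agent.Y645.UG.S_INCg) (hTD : Pool.Agent.Y645.UG.S_TDg) :
    Pool.Agent.Y645.UG.S_Bg := by
  intro k₀ k _ _ _ c hPP δ hδ ι _ L _ _ w hw
  classical
  let _ : Algebra k₀ L := ((algebraMap k L).comp (algebraMap k₀ k)).toAlgebra
  have _ : IsScalarTower k₀ k L := IsScalarTower.of_algebraMap_eq' rfl
  obtain ⟨κ, _, c1, hc⟩ := hTD1 k₀ k L ι w
  obtain ⟨B, hB, hBi, -⟩ := exists_basis (k := k₀) (fun i => (c1 i : k))
  let b : B → kˣ := fun i => c1 i
  have hBc : Fintype.card B = tdu k₀ c1 := by rw [Fintype.card_coe]; exact hB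
  have hb : tdu k₀ b = Fintype.card B := by
    refine le_antisymm (td_le_card _) ?_
    exact card_le_td (x := fun i : B => (b i : k)) hBi (fun i => alg_self ⟨i, rfl⟩)
  have hwb : tdu k₀ (enl w b : ι ⊕ B → Lˣ) ≤ Fintype.card B + tdu k w := by
    have h1 : tdu k₀ (enl w b : ι ⊕ B → Lˣ) ≤ tdu k₀ (enl w c1 : ι ⊕ κ → Lˣ) := by
      refine td_le_of_alg ?_
      rintro (i | i)
      · exact alg_self ⟨Sum.inl i, rfl⟩
      · exact alg_self ⟨Sum.inr i, rfl⟩
    rw [hBc]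
    exact h1.trans hc
  have hi : mrk (enl w b : ι ⊕ B → Lˣ) ≤ mrk w + Fintype.card B := mrk_elim_le _ _
  -- facts on specializations
  have hx : ∀ (L' : Type) [Field L'] [Algebra k L'] (x : ι → L'ˣ), Spc k w x →
      mrk (enl x b : ι ⊕ B → L'ˣ) + mrk w ≤ mrk (enl w b : ι ⊕ B → Lˣ) + mrk x :=
    fun L' _ _ x hs => hINC k L L' ι B w x b hs
  rcases lt_or_ge (δ + mrk (enl w b : ι ⊕ B → Lˣ)) (mrk w + Fintype.card B) with hm | hm
  · refine ⟨1, by simp, ?_⟩
    intro L' _ _ x hs hle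
    exfalso
    let _ : Algebra k₀ L' := ((algebraMap k L').comp (algebraMap k₀ k)).toAlgebra
    have _ : IsScalarTower k₀ k L' := IsScalarTower.of_algebraMap_eq' rfl
    have h1 := hx L' x hs
    have h2 : tdu k₀ b + tdu k x ≤ tdu k₀ (enl x b : ι ⊕ B → L'ˣ) := hTD2 k₀ k L' ι x B b
    have h3 := tdu_le_mrk hTD (k := k₀) (enl x b : ι ⊕ B → L'ˣ)
    omega
  · obtain ⟨g₀, hg₀, hg⟩ := hPP (δ + mrk (enl w b : ι ⊕ B → Lˣ) - (mrk w + Fintype.card B))
      (by omega) (ι ⊕ B) L (enl w b) (by omega)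
    refine ⟨sbs ι b g₀, ?_, ?_⟩
    · rw [← aeval_enl]
      exact hg₀
    · intro L' _ _ x hs hle
      let _ : Algebra k₀ L' := ((algebraMap k L').comp (algebraMap k₀ k)).toAlgebra
      have _ : IsScalarTower k₀ k L' := IsScalarTower.of_algebraMap_eq' rfl
      have hs' : Spc k₀ (enl w b : ι ⊕ B → Lˣ) (enl x b : ι ⊕ B → L'ˣ) := by
        intro f hf
        rw [aeval_enl] at hf ⊢
        exact hs _ hf
      have h1 := hx L' x hs
      have h2 : tdu k₀ b + tdu k x ≤ tdu k₀ (enl x b : ι ⊕ B → L'ˣ) := hTD2 k₀ k L' ι x B b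
      have h4 := hg L' (enl x b) hs' (by omega)
      rw [aeval_enl] at h4
      exact h4

end Pool.Agent.Y15.UG
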